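import Pool.Agent.KS6_64.DC.Final

/-!
# MP_99db3a_nt, Q1: every pair of odd primes `p < p'` fails, each for infinitely many `n`

`N m` is the number of the real roots (with multiplicity) of the derivative of the `m`-th cyclotomic
polynomial.  For all odd primes `p < p'` and every `j ≥ 2`, there are infinitely many products `n` of
exactly `j` distinct odd primes, none of them `p` or `p'`, with `N (n p') ≤ 3 * 2 ^ (j - 1) - 1` and
`N (n p) ≥ 4 * 2 ^ (j - 1) - 1`.

The proof: `n = q r` with `q` a large prime and `r` a prime with `e q < r ≤ (1 + t) e q` for a small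
`t > 0` and a suitable odd `e` (prime number theorem).  With `g(x) = x Φ_m'(x) / Φ_m(x)` one has
`x Φ_{m q r}'(x) / Φ_{m q r}(x) = q r g(x ^ (q r)) - q g(x ^ q) - r g(x ^ r) + g(x)`.  If `r / q` is
near the odd number `e`, then the zeros of this function besides `0` are near those of `g(x ^ (q r))`,
of `G(x ^ q)` and of `g(x)`, where `G(y) = g(y) + e g(y ^ e)`, or separate these three groups.  For
`m = p'` and `e = p'`, `p' + 2` or `p' + 4`, the function `G` has one zero besides `0` (`up_GE`,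
`up_GE2`): this gives `1 + 1 + 1 + 2 = 5` zeros (`upE3`).  For `m = p` and `e ≥ p + 6` (and for `p = 3`,
`e = 9`) the function `G` has three zeros on the negative half-line (`samp2`, `samp39`), and one gets
`7` zeros (`posL`, `negL3`).  So `e = p'` serves if `p' ≥ p + 6`, and `e = p + 6` (`11` for the pair
`3`, `7`) if `p' = p + 2` or `p' = p + 4` (`exists_e`).  Then `n` is multiplied by further large
primes, which doubles `N (n p) + 1` and at most doubles `N (n p') + 1` (`POS_cyc`, `NEG_cyc`, `UP_cyc`).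
-/

set_option autoImplicit false

namespace Pool.Agent.Results.MP_99db3a_nt.EveryPair

open Polynomial Filter Pool.Agent.KS6_64.CY Pool.Agent.KS6_64.CZ Pool.Agent.KS6_64.DA
  Pool.Agent.KS6_64.DB Pool.Agent.KS6_64.DC

/-- `N_m`: the number of the real roots, counted with multiplicity, of the derivative of the `m`-th
cyclotomic polynomial. -/
noncomputable def N (m : ℕ) : ℕ := (derivative (cyclotomic m ℝ)).roots.card

/-- The products `n` of exactly `j` distinct odd primes, not divisible by `p` or `p'`, with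
`N_{n p} ≥ 4 * 2 ^ (j - 1) - 1` and `N_{n p'} ≤ 3 * 2 ^ (j - 1) - 1`. -/
def Bad (p p' j : ℕ) : Set ℕ :=
  {n | Odd n ∧ Squarefree n ∧ n.primeFactors.card = j ∧ ¬ p ∣ n ∧ ¬ p' ∣ n ∧
    4 * 2 ^ (j - 1) ≤ N (n * p) + 1 ∧ N (n * p') + 1 ≤ 3 * 2 ^ (j - 1)}

/-- doubling -/
theorem dbl {a b s : ℕ} (hab : a + b + 1 = 2 * s) :
    (2 * a + if Even a then 1 else 0) + (2 * b + if Even b then 1 else 0) + 1 = 2 * (2 * s) := by
  by_cases hea : Even a
  · have heb : ¬ Even b := by
      intro heb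
      obtain ⟨s', hs⟩ := hea
      obtain ⟨t, ht⟩ := heb
      omega
    rw [if_pos hea, if_neg heb]; omega
  · have heb : Even b := by
      by_contra heb
      obtain ⟨s', hs⟩ := Nat.not_even_iff_odd.1 hea
      obtain ⟨t, ht⟩ := Nat.not_even_iff_odd.1 heb
      omega
    rw [if_neg hea, if_pos heb]; omega

/-- the inductive statement for a fixed pair -/
structure GoodP (p p' i n : ℕ) : Prop where
  two : 2 < n
  odd : Odd n
  sqf : Squarefree n
  card : n.primeFactors.card = i + 2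
  ndvd : ¬ p ∣ n
  ndvd' : ¬ p' ∣ n
  low : ∃ a b : ℕ, a + b + 1 = 8 * 2 ^ i ∧ POS (gg (n * p)) b ∧ POS (fun x => gg (n * p) (-x)) a
  up : UP (gg (n * p')) (gg' (n * p')) (6 * 2 ^ i - 1)

theorem goodP_step {p p' i n : ℕ} (hp : p.Prime) (hp' : p'.Prime) (h : GoodP p p' i n) :
    ∀ᶠ r : ℕ in atTop, r.Prime → GoodP p p' (i + 1) (n * r) := by
  obtain ⟨a, b, hab, hb, ha⟩ := h.low
  have hnp : 2 < n * p := lt_of_lt_of_le h.two (Nat.le_mul_of_pos_right n hp.pos)
  have hnp' : 2 < n * p' := lt_of_lt_of_le h.two (Nat.le_mul_of_pos_right n hp'.pos)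
  filter_upwards [POS_cyc hnp hb, NEG_cyc hnp ha, UP_cyc hnp' h.up, eventually_gt_atTop n,
    eventually_gt_atTop p, eventually_gt_atTop p', eventually_gt_atTop 2]
    with r e1 e2 e3 hrn hrp hrp' hr2 pr
  have hnd : ¬ r ∣ n := fun hd => by
    have := Nat.le_of_dvd (by have := h.two; omega) hd; omega
  have hcop : Nat.Coprime n r := ((Nat.Prime.coprime_iff_not_dvd pr).2 hnd).symm
  have c5 : n * r * p = n * p * r := by ring
  have c7 : n * r * p' = n * p' * r := by ring
  refine ⟨?_, h.odd.mul (pr.odd_of_ne_two (by omega)), ?_, ?_, ?_, ?_,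
    ⟨2 * a + (if Even a then 1 else 0), 2 * b + (if Even b then 1 else 0), ?_, ?_, ?_⟩, ?_⟩
  · exact lt_of_lt_of_le h.two (Nat.le_mul_of_pos_right n pr.pos)
  · exact (Nat.squarefree_mul hcop).2 ⟨h.sqf, pr.squarefree⟩
  · rw [Nat.Coprime.primeFactors_mul hcop, Finset.card_union_of_disjoint hcop.disjoint_primeFactors,
      h.card, pr.primeFactors, Finset.card_singleton]
  · intro hd
    rcases (Nat.Prime.dvd_mul hp).1 hd with hd | hd
    · exact h.ndvd hd
    · have := (Nat.prime_dvd_prime_iff_eq hp pr).1 hd; omega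
  · intro hd
    rcases (Nat.Prime.dvd_mul hp').1 hd with hd | hd
    · exact h.ndvd' hd
    · have := (Nat.prime_dvd_prime_iff_eq hp' pr).1 hd; omega
  · rw [dbl (a := a) (b := b) (s := 4 * 2 ^ i) (by rw [hab]; ring)]; ring
  · rw [c5]; exact e1 pr
  · rw [c5]; exact e2 pr
  · rw [c7]
    have h1 := e3 pr
    have : 2 * (6 * 2 ^ i - 1) + 1 = 6 * 2 ^ (i + 1) - 1 := by
      have : 0 < 2 ^ i := by positivity
      have h2 : 6 * 2 ^ (i + 1) = 2 * (6 * 2 ^ i) := by ring
      omega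
    rwa [this] at h1

theorem goodP_bad {p p' i n : ℕ} (hp : p.Prime) (hp' : p'.Prime) (h : GoodP p p' i n) :
    n ∈ Bad p p' (i + 2) := by
  obtain ⟨a, b, hab, hb, ha⟩ := h.low
  have hnp : 2 < n * p := lt_of_lt_of_le h.two (Nat.le_mul_of_pos_right n hp.pos)
  have hnp' : 2 < n * p' := lt_of_lt_of_le h.two (Nat.le_mul_of_pos_right n hp'.pos)
  have h1 : a + b ≤ N (n * p) := le_roots hnp hb ha
  have h2 : N (n * p') ≤ 6 * 2 ^ i - 1 := roots_le hnp' h.up
  have h3 : i + 2 - 1 = i + 1 := by omega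
  have h4 : 0 < 2 ^ i := by positivity
  have h5 : 2 ^ (i + 1) = 2 * 2 ^ i := by ring
  refine ⟨h.odd, h.sqf, h.card, h.ndvd, h.ndvd', ?_, ?_⟩
  · rw [h3]; omega
  · rw [h3]; omega

theorem exists_goodP {p p' n : ℕ} (hp : p.Prime) (hp' : p'.Prime) (h : GoodP p p' 0 n) :
    ∀ i, ∃ n, GoodP p p' i n
  | 0 => ⟨n, h⟩
  | i + 1 => by
    obtain ⟨m, hm⟩ := exists_goodP hp hp' h i
    obtain ⟨R, hR⟩ := eventually_atTop.1 (goodP_step hp hp' hm)
    obtain ⟨r, hr, pr⟩ := Nat.exists_infinite_primes R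
    exact ⟨m * r, hR r hr pr⟩

theorem base {p p' : ℕ} (hp : p.Prime) (hp' : p'.Prime) (h2 : 2 < p) (h4 : p < p') (R : ℕ) :
    ∃ n, R < n ∧ GoodP p p' 0 n := by
  obtain ⟨e, oe, he, hs, hG⟩ := exists_e hp hp' h2 h4
  obtain ⟨q, r, pq, pr, hR, hpq, hqr, e1, e2, e3⟩ := exists_qr3 hp hp' h2 h4 oe he hs hG R
  have oq : Odd q := pq.odd_of_ne_two (by omega)
  have or : Odd r := pr.odd_of_ne_two (by omega)
  have hq1 : q * 1 ≤ q * r := Nat.mul_le_mul_left q pr.pos
  have hcop : Nat.Coprime q r := (Nat.coprime_primes pq pr).2 (by omega)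
  have c1 : q * r * p = p * q * r := by ring
  have c2 : q * r * p' = p' * q * r := by ring
  refine ⟨q * r, by omega, ⟨by omega, oq.mul or, ?_, ?_, ?_, ?_, ⟨5, 2, by norm_num, ?_, ?_⟩, ?_⟩⟩
  · exact (Nat.squarefree_mul hcop).2 ⟨pq.squarefree, pr.squarefree⟩
  · rw [Nat.Coprime.primeFactors_mul hcop, Finset.card_union_of_disjoint hcop.disjoint_primeFactors,
      pq.primeFactors, pr.primeFactors, Finset.card_singleton, Finset.card_singleton]
  · intro hd
    rcases (Nat.Prime.dvd_mul hp).1 hd with hd | hd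
    · have := (Nat.prime_dvd_prime_iff_eq hp pq).1 hd; omega
    · have := (Nat.prime_dvd_prime_iff_eq hp pr).1 hd; omega
  · intro hd
    rcases (Nat.Prime.dvd_mul hp').1 hd with hd | hd
    · have := (Nat.prime_dvd_prime_iff_eq hp' pq).1 hd; omega
    · have := (Nat.prime_dvd_prime_iff_eq hp' pr).1 hd; omega
  · rw [c1]; exact e2
  · rw [c1]; exact e3
  · rw [c2]; exact e1

/-- For all odd primes `p < p'` and every `j ≥ 2`, there are infinitely many products
`n` of exactly `j` distinct odd primes, not divisible by `p` or `p'`, with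
`N_{n p'} ≤ 3 * 2 ^ (j - 1) - 1 < 4 * 2 ^ (j - 1) - 1 ≤ N_{n p}`. -/
theorem result : ∀ p p' : ℕ, p.Prime → Odd p → p'.Prime → p < p' →
    ∀ j : ℕ, 2 ≤ j → (Bad p p' j).Infinite := by
  intro p p' hp hodd hp' h4 j hj
  have h2 : 2 < p := by
    have := hp.two_le
    rcases Nat.lt_or_ge 2 p with h | h
    · exact h
    · obtain rfl : p = 2 := by omega
      exact absurd hodd (by decide)
  obtain ⟨i, rfl⟩ : ∃ i, j = i + 2 := ⟨j - 2, by omega⟩
  rw [Set.infinite_iff_exists_gt]
  intro M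
  rcases Nat.eq_zero_or_pos i with rfl | hi
  · obtain ⟨n, h1, hg⟩ := base hp hp' h2 h4 M
    exact ⟨n, goodP_bad hp hp' hg, h1⟩
  · obtain ⟨k, rfl⟩ : ∃ k, i = k + 1 := ⟨i - 1, by omega⟩
    obtain ⟨n₀, -, hg⟩ := base hp hp' h2 h4 M
    obtain ⟨n, hn⟩ := exists_goodP hp hp' hg k
    obtain ⟨R, hR⟩ := eventually_atTop.1 (goodP_step hp hp' hn)
    obtain ⟨r, hr, pr⟩ := Nat.exists_infinite_primes (max R (M + 1))
    have h1 := hR r ((le_max_left _ _).trans hr) pr
    refine ⟨n * r, goodP_bad hp hp' h1, ?_⟩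
    have h2 : M + 1 ≤ r := (le_max_right _ _).trans hr
    have h4 : 1 * r ≤ n * r := Nat.mul_le_mul_right r (by have := hn.two; omega)
    omega

end Pool.Agent.Results.MP_99db3a_nt.EveryPair
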